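import Pool.Agent.H40.AG.Base

/-!
ABSOLUTE GAP (`MP_c59857_nt`): row MEM (membership in the sets of `Z`).
-/

set_option autoImplicit false

open MeasureTheory ProbabilityTheory Filter Topology Finset
open scoped Nat ENNReal

namespace Pool.Agent.H45.AG

open Pool.Agent.H67.AG Pool.Agent.H40.AG

theorem pf_MEM (hPNL : T_PNL) (hPXL : T_PXL) (hJ4 : T_J4) : T_MEM := by
  intro X _ _ μ _ Z n A hA
  have h4 := (hJ4 X μ Z).2.1 A hA
  have hN := (hPNL X μ Z n).2.2.2.1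
  have hN' : ∀ b, ∀ᵐ q ∂(PN μ Z n), (q.1 ∈ A ↔ q.2 b ∈ A) :=
    fun b => (hN b).quasiMeasurePreserving.ae h4
  refine ⟨hN', fun R _ h1 h2 => ?_⟩
  obtain ⟨-, -, hp, -, hs, -⟩ := hPXL X μ Z n R h1 h2
  exact ⟨fun b => hp.quasiMeasurePreserving.ae (hN' b), hs.quasiMeasurePreserving.ae h4⟩

end Pool.Agent.H45.AG
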