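import Pool.Agent.H40.AG.Base

/-!
ABSOLUTE GAP (`MP_c59857_nt`): row PXL (laws in the system of section 7).
-/

set_option autoImplicit false

open MeasureTheory ProbabilityTheory Filter Topology Finset
open scoped Nat ENNReal

namespace Pool.Agent.H45.AG

open Pool.Agent.H67.AG Pool.Agent.H40.AG

section

variable {X : Type} [mX : MeasurableSpace X] [StandardBorelSpace X]

theorem PX_prod (μ : Measure X) [IsProbabilityMeasure μ] (Z : SA X) (n : ℕ)
    (R : Measure (X × X)) [IsProbabilityMeasure R] {E : Set (X × X)} {B : Set (Fin n → X)}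
    {C : Set X} (hE : MeasurableSet E) (hB : MeasurableSet B) (hC : MeasurableSet C) :
    PX μ Z n R (E ×ˢ (B ×ˢ C)) =
      ∫⁻ q in E, piK (kap μ Z) n q.1 B * kap μ Z q.2 C ∂(R) := by
  unfold PX
  rw [Measure.compProd_apply_prod hE (hB.prod hC)]
  refine lintegral_congr fun q => ?_
  rw [Kernel.prod_apply, Measure.prod_prod]
  rfl

theorem piK_eval (μ : Measure X) [IsProbabilityMeasure μ] (Z : SA X) (n : ℕ) (b : Fin n) (z : X)
    {A : Set X} (hA : MeasurableSet A) :
    piK (kap μ Z) n z {v | v b ∈ A} = kap μ Z z A := by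
  change (Measure.pi fun _ : Fin n => kap μ Z z) (Function.eval b ⁻¹' A) = kap μ Z z A
  exact (measurePreserving_eval (fun _ : Fin n => kap μ Z z) b).measure_preimage
    hA.nullMeasurableSet

theorem lint_kap (μ : Measure X) [IsProbabilityMeasure μ] (Z : SA X)
    {A : Set X} (hA : MeasurableSet A) : ∫⁻ x, kap μ Z x A ∂μ = μ A := by
  have h1 : ∫ x, (kap μ Z x).real A ∂μ = μ.real A := by
    rw [integral_congr_ae (condExp_kap_set μ Z hA), integral_condExp Z.2,
      integral_indicator_const _ hA, smul_eq_mul, mul_one]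
  have h2 : ∫ x, (kap μ Z x).real A ∂μ = (∫⁻ x, kap μ Z x A ∂μ).toReal := by
    refine integral_toReal ((kap μ Z).measurable_coe hA).aemeasurable (ae_of_all _ fun x => ?_)
    exact measure_lt_top _ _
  rw [h2] at h1
  refine (ENNReal.toReal_eq_toReal_iff' ?_ (measure_ne_top _ _)).1 h1
  refine ne_of_lt (lt_of_le_of_lt (lintegral_mono fun x => prob_le_one) ?_)
  simp

end

theorem pf_PXL (hQF : T_QF) : T_PXL := by
  intro X _ _ μ _ Z n R _ h1 h2
  refine ⟨inferInstance, ?_, ?_, ?_, ?_, ?_⟩
  · refine ⟨measurable_fst, ?_⟩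
    exact Measure.fst_compProd _ _
  · have hm : Measurable (prX X n) :=
      (measurable_fst.comp measurable_fst).prodMk (measurable_fst.comp measurable_snd)
    refine ⟨hm, ?_⟩
    have : IsProbabilityMeasure ((PX μ Z n R).map (prX X n)) :=
      Measure.isProbabilityMeasure_map hm.aemeasurable
    refine Measure.ext_prod fun {s t} hs ht => ?_
    rw [Measure.map_apply hm (hs.prod ht)]
    have e : prX X n ⁻¹' (s ×ˢ t) = (Prod.fst ⁻¹' s) ×ˢ (t ×ˢ (Set.univ : Set X)) := by
      ext q
      simp [prX]
    rw [e, PX_prod μ Z n R (measurable_fst hs) ht MeasurableSet.univ]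
    unfold PN
    rw [Measure.compProd_apply_prod hs ht,
      ← h1.setLIntegral_comp_preimage hs ((piK (kap μ Z) n).measurable_coe ht)]
    refine lintegral_congr fun q => ?_
    rw [measure_univ, mul_one]
  · intro b
    have hm : Measurable (fun q : XX X n => (q.2.1 b, q.2.2)) :=
      ((measurable_pi_apply b).comp (measurable_fst.comp measurable_snd)).prodMk
        (measurable_snd.comp measurable_snd)
    refine ⟨hm, ?_⟩
    have : IsProbabilityMeasure ((PX μ Z n R).map (fun q : XX X n => (q.2.1 b, q.2.2))) :=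
      Measure.isProbabilityMeasure_map hm.aemeasurable
    refine Measure.ext_prod fun {s t} hs ht => ?_
    rw [Measure.map_apply hm (hs.prod ht)]
    have e : (fun q : XX X n => (q.2.1 b, q.2.2)) ⁻¹' (s ×ˢ t) =
        (Set.univ : Set (X × X)) ×ˢ ({v | v b ∈ s} ×ˢ t) := by
      ext q
      simp
    have hs' : MeasurableSet {v : Fin n → X | v b ∈ s} := measurable_pi_apply b hs
    rw [e, PX_prod μ Z n R MeasurableSet.univ hs' ht, hQF X μ Z R _ (hs.prod ht),
      Measure.restrict_univ]
    refine lintegral_congr fun q => ?_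
    rw [piK_eval μ Z n b q.1 hs, Measure.prod_prod]
  · have hm : Measurable (fun q : XX X n => (q.1.2, q.2.2)) :=
      (measurable_snd.comp measurable_fst).prodMk (measurable_snd.comp measurable_snd)
    refine ⟨hm, ?_⟩
    have : IsProbabilityMeasure ((PX μ Z n R).map (fun q : XX X n => (q.1.2, q.2.2))) :=
      Measure.isProbabilityMeasure_map hm.aemeasurable
    refine Measure.ext_prod fun {s t} hs ht => ?_
    rw [Measure.map_apply hm (hs.prod ht)]
    have e : (fun q : XX X n => (q.1.2, q.2.2)) ⁻¹' (s ×ˢ t) =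
        (Prod.snd ⁻¹' s) ×ˢ ((Set.univ : Set (Fin n → X)) ×ˢ t) := by
      ext q
      simp
    rw [e, PX_prod μ Z n R (measurable_snd hs) MeasurableSet.univ ht]
    unfold JJ
    rw [Measure.compProd_apply_prod hs ht,
      ← h2.setLIntegral_comp_preimage hs ((kap μ Z).measurable_coe ht)]
    refine lintegral_congr fun q => ?_
    rw [measure_univ, one_mul]
  · have hm : Measurable (fun q : XX X n => q.2.2) := measurable_snd.comp measurable_snd
    refine ⟨hm, ?_⟩
    refine Measure.ext fun t ht => ?_
    rw [Measure.map_apply hm ht]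
    have e : (fun q : XX X n => q.2.2) ⁻¹' t =
        (Set.univ : Set (X × X)) ×ˢ ((Set.univ : Set (Fin n → X)) ×ˢ t) := by
      ext q
      simp
    rw [e, PX_prod μ Z n R MeasurableSet.univ MeasurableSet.univ ht, Measure.restrict_univ,
      ← lint_kap μ Z ht, ← h2.lintegral_comp ((kap μ Z).measurable_coe ht)]
    refine lintegral_congr fun q => ?_
    rw [measure_univ, one_mul]

end Pool.Agent.H45.AG
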