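import Pool.Agent.H40.AG.Base

/-!
ABSOLUTE GAP (`MP_c59857_nt`): row PXT (the map on the system of section 7 preserves the measure).
-/

set_option autoImplicit false

open MeasureTheory ProbabilityTheory Filter Topology Finset
open scoped Nat ENNReal

namespace Pool.Agent.H45.AG

open Pool.Agent.H67.AG Pool.Agent.H40.AG

section

variable {X : Type} [mX : MeasurableSpace X] [StandardBorelSpace X]

theorem PX_prod' (μ : Measure X) [IsProbabilityMeasure μ] (Z : SA X) (n : ℕ)
    (R : Measure (X × X)) [IsProbabilityMeasure R] {E : Set (X × X)} {B : Set (Fin n → X)}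
    {C : Set X} (hE : MeasurableSet E) (hB : MeasurableSet B) (hC : MeasurableSet C) :
    PX μ Z n R (E ×ˢ (B ×ˢ C)) =
      ∫⁻ q in E, piK (kap μ Z) n q.1 B * kap μ Z q.2 C ∂(R) := by
  unfold PX
  rw [Measure.compProd_apply_prod hE (hB.prod hC)]
  refine lintegral_congr fun q => ?_
  rw [Kernel.prod_apply, Measure.prod_prod]
  rfl

/-- the independent points over the image -/
theorem piK_map (μ : Measure X) [IsProbabilityMeasure μ] (T : X ≃ᵐ X) (Z : SA X) (n : ℕ) (z : X)
    (h : kap μ Z (T z) = (kap μ Z z).map T) :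
    piK (kap μ Z) n (T z) =
      (piK (kap μ Z) n z).map (MeasurableEquiv.piCongrRight fun _ : Fin n => T) := by
  change (Measure.pi fun _ : Fin n => kap μ Z (T z)) =
    (Measure.pi fun _ : Fin n => kap μ Z z).map _
  rw [h]
  have : IsProbabilityMeasure ((kap μ Z z).map T) :=
    Measure.isProbabilityMeasure_map T.measurable.aemeasurable
  exact (measurePreserving_pi (fun _ : Fin n => kap μ Z z) (fun _ : Fin n => (kap μ Z z).map T)
    (f := fun _ => T) fun i => ⟨T.measurable, rfl⟩).map_eq.symm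

end

theorem pf_PXT (hJ3 : T_J3) : T_PXT := by
  intro X _ _ μ _ T Z n R _ hT hZ h1 h2 hR
  obtain ⟨-, hk⟩ := hJ3 X μ T Z hT hZ
  refine ⟨(TX T n).measurable, ?_⟩
  have : IsProbabilityMeasure ((PX μ Z n R).map (TX T n)) :=
    Measure.isProbabilityMeasure_map (TX T n).measurable.aemeasurable
  refine Measure.ext_prod₃ fun {E B C} hE hB hC => ?_
  rw [Measure.map_apply (TX T n).measurable (hE.prod (hB.prod hC))]
  set Tn : (Fin n → X) ≃ᵐ (Fin n → X) := MeasurableEquiv.piCongrRight fun _ : Fin n => T with hTn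
  have e : (TX T n) ⁻¹' (E ×ˢ (B ×ˢ C)) = ((TT T) ⁻¹' E) ×ˢ ((Tn ⁻¹' B) ×ˢ (T ⁻¹' C)) := rfl
  rw [e, PX_prod' μ Z n R ((TT T).measurable hE) (Tn.measurable hB) (T.measurable hC),
    PX_prod' μ Z n R hE hB hC]
  have hm : Measurable fun q : X × X => piK (kap μ Z) n q.1 B * kap μ Z q.2 C :=
    (((piK (kap μ Z) n).measurable_coe hB).comp measurable_fst).mul
      (((kap μ Z).measurable_coe hC).comp measurable_snd)
  rw [← hR.setLIntegral_comp_preimage hE hm]
  refine lintegral_congr_ae (ae_restrict_of_ae ?_)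
  filter_upwards [h1.quasiMeasurePreserving.ae hk, h2.quasiMeasurePreserving.ae hk] with q hq1 hq2
  change _ = piK (kap μ Z) n (T q.1) B * kap μ Z (T q.2) C
  rw [piK_map μ T Z n q.1 hq1, hq2, Measure.map_apply Tn.measurable hB,
    Measure.map_apply T.measurable hC]

end Pool.Agent.H45.AG
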